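import Mathlib
import Pool.Agent.Lib.MP_caab05_ag.LT.Defs
import Pool.Agent.Lib.MP_caab05_ag.CM.Exc

/-! The period field of an abelian variety with complex multiplication. -/

namespace Pool.Agent.Results.MP_caab05_ag.CMField

open Pool.Agent.Lib.MP_caab05_ag.LT

/-- There is one nonzero space `U` of functions on the automorphisms of the complex numbers, odd
under complex conjugation and stable under translations, with the following property.  Let `A` be
an abelian variety of dimension `d > 0` over the algebraic numbers with complex multiplication by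
an algebra `E` with complex conjugation `c`, of type `φ`, written in a basis of eigenvectors of
its Lie algebra, so that the periods are the vectors `(φ k x * ω k)`, and let `V` be the space of
functions attached to the type, whose dimension is the dimension of the Mumford-Tate group.  Then
the transcendence degree of the field generated by `π` and the `ω k` is the dimension of `V` if
`V` does not contain `U`, and one less if it does. -/
theorem result : ∃ U : Submodule ℚ ((ℂ ≃+* ℂ) → ℚ), U ≠ ⊥ ∧
    (∀ f ∈ U, ∀ σ : ℂ ≃+* ℂ, f (σ.trans starRingAut) = -f σ) ∧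
    (∀ f ∈ U, ∀ τ : ℂ ≃+* ℂ, (fun σ => f (τ.trans σ)) ∈ U) ∧
    ∀ (d M : ℕ), 0 < d → ∀ (A : AbVar d M) (E : Type) [CommRing E] [Algebra ℚ E]
      [Module.Finite ℚ E] (c : E →+* E),
      (∀ (ψ : E →+* ℂ) (x : E), ψ (c x) = starRingEnd ℂ (ψ x)) → ∀ (φ : Fin d → E →+* ℂ),
      (∀ ψ : E →+* ℂ, ψ ∈ Set.range φ ↔ (starRingEnd ℂ).comp ψ ∉ Set.range φ) →
      ∀ (ω : Fin d → ℂ), (∀ y ∈ A.Λ, ∃ x : E, y = fun k => φ k x * ω k) →
      ∀ V : Submodule ℚ ((ℂ ≃+* ℂ) → ℚ),
        V = Submodule.span ℚ (Set.range fun ψ : E →+* ℂ => fun σ : ℂ ≃+* ℂ =>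
          (Set.range φ).indicator (fun _ => (1 : ℚ)) ((σ : ℂ →+* ℂ).comp ψ)) →
        (¬ U ≤ V → Algebra.trdeg ℚ (IntermediateField.adjoin ℚ
          (insert (Real.pi : ℂ) (Set.range ω))) = (Module.finrank ℚ V : ℕ)) ∧
        (U ≤ V → Algebra.trdeg ℚ (IntermediateField.adjoin ℚ
          (insert (Real.pi : ℂ) (Set.range ω))) + 1 = (Module.finrank ℚ V : ℕ)) := by
  obtain ⟨U, a, b, c, h⟩ := Pool.Agent.Lib.MP_caab05_ag.CM.exc
  refine ⟨U, a, b, c, fun d M hd A E _ _ _ c hc φ hφ ω hω V hV => ?_⟩
  subst hV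
  exact h d M hd A E c hc φ hφ ω hω

end Pool.Agent.Results.MP_caab05_ag.CMField
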