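import Mathlib
import Pool.Agent.Lib.MP_caab05_ag.LT.Defs
import Pool.Agent.Lib.MP_caab05_ag.CM.All

/-! The periods of weight zero of an abelian variety with complex multiplication. -/

namespace Pool.Agent.Results.MP_caab05_ag.CMPeriods

open Pool.Agent.Lib.MP_caab05_ag.LT

/-- Let `A` be an abelian variety of dimension `d > 0` over the algebraic numbers with complex
multiplication by an algebra `E` with complex conjugation `c`, of type `φ`, written in a basis of
eigenvectors of its Lie algebra, so that the periods are the vectors `(φ k x * ω k)`.  Then the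
transcendence degree of the field generated by the `ω k ^ 2 / π`, plus one, is the rank of the
type, that is the dimension of the Mumford-Tate group. -/
theorem result {d M : ℕ} (hd : 0 < d) (A : AbVar d M) (E : Type) [CommRing E] [Algebra ℚ E]
    [Module.Finite ℚ E] (c : E →+* E)
    (hc : ∀ (ψ : E →+* ℂ) (x : E), ψ (c x) = starRingEnd ℂ (ψ x)) (φ : Fin d → E →+* ℂ)
    (hφ : ∀ ψ : E →+* ℂ, ψ ∈ Set.range φ ↔ (starRingEnd ℂ).comp ψ ∉ Set.range φ)
    (ω : Fin d → ℂ) (hΛ : ∀ y ∈ A.Λ, ∃ x : E, y = fun k => φ k x * ω k) :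
    Algebra.trdeg ℚ (IntermediateField.adjoin ℚ (Set.range fun k => ω k ^ 2 / Real.pi)) + 1 =
      (Module.finrank ℚ (Submodule.span ℚ (Set.range fun ψ : E →+* ℂ => fun σ : ℂ ≃+* ℂ =>
        (Set.range φ).indicator (fun _ => (1 : ℚ)) ((σ : ℂ →+* ℂ).comp ψ))) : ℕ) :=
  Pool.Agent.Lib.MP_caab05_ag.CM.fin' d M hd A E c hc φ hφ ω hΛ

end Pool.Agent.Results.MP_caab05_ag.CMPeriods
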