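import Mathlib
import Pool.Agent.Lib.MP_caab05_ag.NC.Mu

/-! A lower bound for the transcendence degree of the period field of an abelian variety. -/

namespace Pool.Agent.Results.MP_caab05_ag.NonCM

open Module Pool.Agent.Lib.MP_caab05_ag.NC

/-- Let `A` be an abelian variety of dimension `d` over the algebraic numbers, `Y` a real subspace
of its Lie algebra spanned by periods, of dimension `l`, whose complex span has dimension `n`, and
let `μ` be a real number such that `dim (U ∩ Y) ≤ μ * dim U` (real and complex dimension) for the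
tangent space `U` of every abelian subvariety.  If a field `F` of transcendence degree at most `t`
contains all periods and quasi-periods of `A` multiplied by one nonzero number `c`, then
`l * (2 - μ) ≤ t * (2 * n - l)`. -/
theorem result (d M : ℕ) (A : NV d M) (Y : Submodule ℝ (Fin d → ℂ))
    (hY : Submodule.span ℝ ((Y : Set (Fin d → ℂ)) ∩ A.Λ) = Y) (μ : ℝ)
    (hμ : ∀ U : Submodule ℂ (Fin d → ℂ),
      Submodule.span ℝ ((U : Set (Fin d → ℂ)) ∩ A.Λ) = U.restrictScalars ℝ →
      (finrank ℝ ↥(U.restrictScalars ℝ ⊓ Y) : ℝ) ≤ μ * finrank ℂ U)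
    (c : ℂ) (hc : c ≠ 0) (F : IntermediateField ℚ ℂ)
    (hF : ∀ x ∈ A.Λ, ∀ k, c * x k ∈ F ∧ c * A.η x k ∈ F) (t : ℕ) (ht : Algebra.trdeg ℚ F ≤ t) :
    (finrank ℝ Y : ℝ) * (2 - μ) ≤
      t * (2 * finrank ℂ (Submodule.span ℂ (Y : Set (Fin d → ℂ))) - finrank ℝ Y) :=
  mu A Y hY μ hμ hc hF ht

end Pool.Agent.Results.MP_caab05_ag.NonCM
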