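import Pool.Agent.Lib.MP_caab05_ag.Z3.All

/-!
The numbers `1, ζ(2), ζ(3)` are linearly independent over the rationals.
-/

namespace Pool.Agent.Results.MP_caab05_ag.ZetaTwoThree

theorem result : LinearIndependent ℚ ![(1 : ℂ), riemannZeta 2, riemannZeta 3] :=
  Pool.Agent.Caab.Z3.main

end Pool.Agent.Results.MP_caab05_ag.ZetaTwoThree
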